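import Pool.Agent.H76.CF.CRTG

/-!
# The bijection between ray class characters and primitive characters of the ring class group
-/

set_option autoImplicit false

open NumberField
open scoped nonZeroDivisors

namespace Pool.Agent.H76.CF

open Pool.Agent.H31.CN Pool.Agent.H95.CF Pool.Agent.H28.RC Pool.Agent.H37.CF
open Pool.Agent.H91.CF (ch npt npD xit xiD pit piD TrQ NRe NVc RQ nn rr ww fmD Fu)
open Pool.Agent.H24.Cls (Quad)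

theorem rcc_ext {K : Type} [Field K] [NumberField K] (h : IsEmpty (RP K)) {χ χ' : RCC K}
    (h1 : χ.f = χ'.f) (h2 : ∀ I, χ.ψ I = χ'.ψ I) : χ = χ' := by
  have h3 : χ.S = χ'.S := by
    rw [Finset.eq_empty_of_isEmpty χ.S, Finset.eq_empty_of_isEmpty χ'.S]
  have h4 : χ.ψ = χ'.ψ := funext h2
  cases χ
  cases χ'
  simp only at h1 h3 h4
  subst h1 h3 h4
  rfl

/-- (BIJ) the bijection. -/
theorem pf_BIJ (hICP : Pool.Agent.H31.CN.T_ICP) (hRTG : T_RTG) (hGTR : T_GTR) : T_BIJ := by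
  intro K _ _ D f G _ _ cl hK hf h
  have hE := isEmpty_RP hICP hK
  have h1 : ∀ χ : RQ K f, ∃ φ : {φ : G →* ℂˣ // Prim K f cl φ}, Cor f cl χ.1 φ.1 := by
    rintro ⟨χ, hT, hχ⟩
    obtain ⟨φ, hφ1, hφ2⟩ := hRTG K D f G cl hK hf h χ hχ hT
    exact ⟨⟨φ, hφ1⟩, hφ2⟩
  have h2 : ∀ φ : {φ : G →* ℂˣ // Prim K f cl φ}, ∃ χ : RQ K f, Cor f cl χ.1 φ.1 := by
    rintro ⟨φ, hφ⟩
    obtain ⟨χ, hχ, hT, hC⟩ := hGTR K D f G cl hK hf h φ hφ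
    exact ⟨⟨χ, hT, hχ⟩, hC⟩
  choose F hF using h1
  choose B hB using h2
  have hinj : ∀ (χ χ' : RQ K f) (φ : G →* ℂˣ), Cor f cl χ.1 φ → Cor f cl χ'.1 φ → χ = χ' := by
    intro χ χ' φ hc hc'
    apply Subtype.ext
    have hf1 : χ.1.f = Ideal.span {(f : 𝓞 K)} := χ.2.2
    have hf2 : χ'.1.f = Ideal.span {(f : 𝓞 K)} := χ'.2.2
    refine rcc_ext hE (hf1.trans hf2.symm) fun I => ?_
    by_cases h3 : I = ⊥
    · rw [h3, χ.1.map_bot, χ'.1.map_bot]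
    · by_cases h4 : I ⊔ Ideal.span {(f : 𝓞 K)} = ⊤
      · rw [hc I ⟨h3, h4⟩, hc' I ⟨h3, h4⟩]
      · rw [χ.1.eq_zero I (by rw [hf1]; exact h4), χ'.1.eq_zero I (by rw [hf2]; exact h4)]
  have hinj2 : ∀ (χ : RQ K f) (φ φ' : G →* ℂˣ), Cor f cl χ.1 φ → Cor f cl χ.1 φ' → φ = φ' := by
    intro χ φ φ' hc hc'
    ext g
    obtain ⟨I, hI, rfl⟩ := h.sur g
    rw [← hc I hI, ← hc' I hI]
  exact ⟨⟨F, B, fun χ => hinj _ _ _ (hB (F χ)) (hF χ),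
    fun φ => Subtype.ext (hinj2 _ _ _ (hF (B φ)) (hB φ))⟩, hF⟩

end Pool.Agent.H76.CF
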