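import Pool.Agent.H37.CF.Basic

/-!
# From ray class characters to characters of the ring class group
-/

set_option autoImplicit false

open NumberField
open scoped nonZeroDivisors

namespace Pool.Agent.H76.CF

open Pool.Agent.H31.CN Pool.Agent.H95.CF Pool.Agent.H28.RC Pool.Agent.H37.CF
open Pool.Agent.H91.CF (ch npt npD xit xiD pit piD TrQ NRe NVc RQ nn rr ww fmD Fu)
open Pool.Agent.H24.Cls (Quad)

theorem isEmpty_RP (hICP : Pool.Agent.H31.CN.T_ICP) {K : Type} [Field K] [NumberField K] {D : ℕ}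
    (hK : IQ K D) : IsEmpty (RP K) := by
  have h := hICP D K (by have := hK.big; omega) hK.deg hK.dis
  constructor
  rintro ⟨v, hv⟩
  have h1 := h.isComplex v
  rw [← InfinitePlace.not_isReal_iff_isComplex] at h1
  exact h1 hv

theorem sg_one {K : Type} [Field K] [NumberField K] (h : IsEmpty (RP K)) (S : Finset (RP K))
    (x : K) : sg K S x = 1 := by
  unfold sg
  rw [Finset.eq_empty_of_isEmpty S, Finset.prod_empty]

/-- (RTG) from ray class characters to characters of the ring class group. -/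
theorem pf_RTG (hICP : Pool.Agent.H31.CN.T_ICP) : T_RTG := by
  intro K _ _ D f G _ cl hK hf h χ hχ hT
  have hE := isEmpty_RP hICP hK
  have hrat : ∀ a : 𝓞 K, Rat K f f a → χ.ψ (Ideal.span {a}) = 1 := by
    intro a ha
    obtain ⟨hPr, n, hn⟩ := ha
    obtain ⟨u, v, huv⟩ := int_coprime (dvd_refl f) hPr hn
    obtain ⟨k, hk1, w, hw⟩ := ex_nat hf u
    have hkc : k.Coprime f := by
      rw [← Nat.isCoprime_iff_coprime]
      refine ⟨n, v - n * w, ?_⟩
      linear_combination huv + n * hw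
    have h1 : a * (k : 𝓞 K) - 1 ∈ χ.f := by
      rw [hχ]
      have e1 : a * (k : 𝓞 K) - 1 = (k : 𝓞 K) * (a - n) + ((k * n - 1 : ℤ) : 𝓞 K) := by
        push_cast; ring
      rw [e1]
      refine Ideal.add_mem _ (Ideal.mul_mem_left _ _ hn) (fspan_int ⟨n * w - v, ?_⟩)
      linear_combination huv + n * hw
    have hk0 : (k : 𝓞 K) ≠ 0 := by
      have : k ≠ 0 := by omega
      exact_mod_cast this
    have ha0 := pr_ne hPr
    have h2 := χ.princ (a * (k : 𝓞 K)) (mul_ne_zero ha0 hk0) h1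
    rw [sg_one hE, ← Ideal.span_singleton_mul_span_singleton, χ.map_mul,
      hT k hk1 (by rw [hχ]; exact (pr_nat hk1 hkc).2), mul_one] at h2
    exact h2
  have hwd : ∀ I J, Pr K f I → Pr K f J → cl I = cl J → χ.ψ I = χ.ψ J := by
    intro I J hI hJ hIJ
    obtain ⟨a, b, ha, hb, hab⟩ := (h.eqv I J hI hJ).1 hIJ
    have h1 := congrArg χ.ψ hab
    rw [χ.map_mul, χ.map_mul, hrat a ha, hrat b hb, one_mul, one_mul] at h1
    exact h1
  have hne : ∀ I, Pr K f I → χ.ψ I ≠ 0 := by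
    intro I hI h0
    have h1 := χ.norm_one I hI.1 (by rw [hχ]; exact hI.2)
    rw [h0, norm_zero] at h1
    exact zero_ne_one h1
  choose R hR1 hR2 using h.sur
  let φ : G →* ℂˣ :=
    { toFun := fun g => Units.mk0 (χ.ψ (R g)) (hne _ (hR1 g))
      map_one' := by
        ext
        rw [Units.val_mk0, Units.val_one, ← χ.map_one]
        exact hwd _ _ (hR1 1) (pr_top K f) (by rw [hR2, cl_top h])
      map_mul' := by
        intro g g'
        ext
        rw [Units.val_mul, Units.val_mk0, Units.val_mk0, Units.val_mk0, ← χ.map_mul]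
        refine hwd _ _ (hR1 _) (pr_mul.2 ⟨hR1 g, hR1 g'⟩) ?_
        rw [hR2, h.mul _ _ (hR1 g) (hR1 g'), hR2, hR2] }
  have hφ : ∀ I, Pr K f I → χ.ψ I = ((φ (cl I) : ℂˣ) : ℂ) := by
    intro I hI
    change χ.ψ I = χ.ψ (R (cl I))
    exact hwd _ _ hI (hR1 _) (by rw [hR2])
  refine ⟨φ, ?_, hφ⟩
  intro p hp hpf
  obtain ⟨P, hPm, hPp⟩ := Ideal.exists_le_maximal (Ideal.span {(p : 𝓞 K)}) (not_unit_prime hp)
  have hpP : (p : 𝓞 K) ∈ P := hPp (Ideal.mem_span_singleton_self _)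
  obtain ⟨a, ha0, ha1, ha2, ha3⟩ := χ.prim P hPm.isPrime (by
    rw [hχ, Ideal.span_singleton_le_iff_mem]
    exact hPp (fspan_mono hpf (Ideal.mem_span_singleton_self _)))
  rw [sg_one hE] at ha3
  have hPra : Pr K f (Ideal.span {a}) :=
    ⟨by rwa [Ne, Ideal.span_singleton_eq_bot], by rw [← hχ]; exact ha1⟩
  have h4 := ha2 _ hpP
  rw [hχ] at h4
  obtain ⟨c, hc⟩ := mem_fspan.1 h4
  obtain ⟨e, rfl⟩ := hpf
  have hp0 : (p : 𝓞 K) ≠ 0 := by exact_mod_cast hp.ne_zero
  have h5 : a - 1 = (e : 𝓞 K) * c := by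
    apply mul_left_cancel₀ hp0
    push_cast at hc
    linear_combination hc
  have h6 : p * e / p = e := Nat.mul_div_cancel_left e hp.pos
  refine ⟨cl (Ideal.span {a}), ⟨a, ⟨hPra, 1, ?_⟩, rfl⟩, ?_⟩
  · rw [h6, mem_fspan]
    exact ⟨c, by rw [Int.cast_one]; exact h5⟩
  · intro h7
    apply ha3
    rw [hφ _ hPra, h7, Units.val_one]

end Pool.Agent.H76.CF
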